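import Mathlib

/-!
# MP_c0c476_ag: local volumes along the MMP: the movable criterion

Let `(Y, Δ_Y)` be a projective `ℚ`-factorial klt pair and let `F ⊆ N¹(Y)` be spanned by the classes
pulled back from varieties without rational curves. A class `N` is an accumulation class if every
neighbourhood of `N` contains, modulo `F`, strict transforms of ample classes of infinitely many
models of `(Y, Δ_Y)` (so `N` is a limit of movable classes modulo `F`). If for every accumulation
class `N ∉ F` the set `N + ℝ (K_Y + Δ_Y) + F` contains a big class, the local volumes of all models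
of `(Y, Δ_Y)` obtained by `(K_Y + Δ_Y)`-nonnegative birational maps are bounded below, and the same
is true for every klt pair `(X, Δ)` with a generically finite crepant morphism
`(Y, Δ_Y) → (X, Δ)`.
-/

set_option autoImplicit false

open Set Pointwise Topology

namespace Pool.Agent.Work.MP_c0c476_mc.Draft

/-- The models of a projective klt pair `(X, Δ)`. -/
structure Models where
  /-- the `(K + Δ)`-nonnegative birational maps `φ : X ⇢ X'`, up to isomorphisms of `X'` -/
  Map : Type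
  /-- the closed points of `X'` -/
  Point : Map → Type
  /-- the normalized volume of `(X', φ_* Δ)` at a point -/
  vol : (φ : Map) → Point φ → ℝ

/-- The local volumes of the models of `(X, Δ)` are bounded below: the assertion of Q1. -/
def VolBounded (M : Models) : Prop :=
  ∃ ε : ℝ, 0 < ε ∧ ∀ (φ : M.Map) (x : M.Point φ), ε ≤ M.vol φ x

/-- A generically finite crepant morphism `f : (Y, Δ_Y) → (X, Δ)`, `K_Y + Δ_Y = f^* (K + Δ)`, with
`Δ_Y` effective (for instance a small `ℚ`-factorialization, or the identity). A nonnegative map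
`X ⇢ X'` lifts to a nonnegative map from `Y` to the normalization `Y'` of `X'` in the function field
of `Y`, and the local volume of a point of `X'` is at least the local volume of a point of `Y'` over
it, divided by the degree. -/
structure CrepantCover (Y X : Models) where
  deg : ℕ
  deg_pos : 0 < deg
  lift : X.Map → Y.Map
  vol_le : ∀ (φ : X.Map) (x : X.Point φ), ∃ y : Y.Point (lift φ),
    Y.vol (lift φ) y ≤ deg * X.vol φ x

/-- A projective `ℚ`-factorial klt pair `(X, Δ)` with its `(K + Δ)`-nonnegative birational maps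
`φ : X ⇢ X'`; `p : W → X` and `q : W → X'` is a common resolution. `V` is the space `N¹(X)` of real
divisors on `X` up to numerical equivalence. -/
structure VolData (V : Type) [NormedAddCommGroup V] [NormedSpace ℝ V] extends Models where
  /-- the dimension of `X` -/
  dim : ℕ
  /-- the class of `K_X + Δ` -/
  kappa : V
  /-- the big classes -/
  big : Set V
  big_open : IsOpen big
  big_smul : ∀ L ∈ big, ∀ t : ℝ, 0 < t → t • L ∈ big
  /-- the volume of a class -/
  volume : V → ℝ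
  volume_pos : ∀ L ∈ big, 0 < volume L
  volume_cont : ContinuousOn volume big
  /-- the prime divisors over `X` -/
  Val : Type
  /-- the log discrepancies with respect to `(X, Δ)` -/
  ld : Val → ℝ
  ld_pos : ∀ v, 0 < ld v
  /-- `orders L` is the set of the functions `v ↦ ord_v G`, where `G` is an effective divisor of
  class `L` -/
  orders : V → Set (Val → ℝ)
  orders_nonneg : ∀ L, ∀ o ∈ orders L, ∀ v, 0 ≤ o v
  orders_nonempty : ∀ L ∈ big, (orders L).Nonempty
  orders_add : ∀ L L', ∀ o ∈ orders L, ∀ o' ∈ orders L', o + o' ∈ orders (L + L')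
  /-- the alpha invariant of a big class is positive -/
  alpha_pos : ∀ L ∈ big, ∃ a : ℝ, 0 < a ∧ ∀ o ∈ orders L, ∀ v, a * o v ≤ ld v
  /-- the classes `L` such that `φ_* L` is `ℝ`-Cartier -/
  cart : Map → Submodule ℝ V
  /-- `diff φ L v` is the coefficient at `v` of `q^* φ_* L - p^* L`. For an effective divisor `G` of
  class `L` the order of vanishing of `φ_* G` along `v` is `ord_v G + diff φ L v`. -/
  diff : (φ : Map) → cart φ →ₗ[ℝ] (Val → ℝ)
  kappa_mem : ∀ φ, kappa ∈ cart φ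
  /-- `φ` is `(K + Δ)`-nonnegative. The log discrepancy of `v` with respect to `(X', φ_* Δ)` is
  `ld v - diff φ κ v`. -/
  kappa_nonneg : ∀ φ v, diff φ ⟨kappa, kappa_mem φ⟩ v ≤ 0
  /-- the strict transforms on `X` of the ample classes of `X'` -/
  amp : Map → Set V
  amp_nonempty : ∀ φ, (amp φ).Nonempty
  amp_smul : ∀ φ, ∀ N ∈ amp φ, ∀ t : ℝ, 0 < t → t • N ∈ amp φ
  amp_big : ∀ φ, amp φ ⊆ big
  amp_mem : ∀ φ, ∀ N ∈ amp φ, N ∈ cart φ
  /-- `q^* φ_* N ≤ p^* N` for `N` in `amp φ` by the negativity lemma -/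
  amp_diff : ∀ φ N (h : N ∈ amp φ) v, diff φ ⟨N, amp_mem φ N h⟩ v ≤ 0
  /-- local-to-global inequality for the graded linear series `φ_* |k L|` on `X'`, which contains an
  ample series and has the volume of `L` -/
  local_global : ∀ L ∈ big, ∀ (φ : Map) (h : L ∈ cart φ) (a : ℝ), 0 < a →
    (∀ o ∈ orders L, ∀ v, a * (o v + diff φ ⟨L, h⟩ v) ≤ ld v - diff φ ⟨kappa, kappa_mem φ⟩ v) →
    ∀ x : Point φ, a ^ dim * volume L ≤ vol φ x
  /-- the morphisms `π : X → B` to projective varieties with a divisor class on `B` -/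
  Fib : Type
  /-- the pull-back of the class to `X` -/
  pull : Fib → V
  /-- `B` contains no rational curve -/
  NoRationalCurve : Fib → Prop
  /-- if `B` contains no rational curve, `π` is a morphism on `X'` too: the fibres of the resolution
  of a klt pair are rationally chain connected (Hacon, McKernan) -/
  pull_mem : ∀ π, NoRationalCurve π → ∀ φ, pull π ∈ cart φ
  diff_pull : ∀ π (h : NoRationalCurve π) φ, diff φ ⟨pull π, pull_mem π h φ⟩ = 0

section
variable {V : Type} [NormedAddCommGroup V] [NormedSpace ℝ V]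

/-- The span of the classes on `X` pulled back from varieties without rational curves. -/
def baseClasses (M : VolData V) : Submodule ℝ V :=
  Submodule.span ℝ {L | ∃ π, M.NoRationalCurve π ∧ M.pull π = L}

/-- Every neighbourhood of `N` contains, modulo `F = baseClasses M`, strict transforms of ample
classes of infinitely many models. -/
def IsAccumulation (M : VolData V) (N : V) : Prop :=
  ∀ U ∈ 𝓝 N, {φ | (M.amp φ ∩ (U + (baseClasses M : Set V))).Nonempty}.Infinite

/-- Every accumulation class outside `F = baseClasses M` becomes big after adding a real multiple of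
`K + Δ` and an element of `F`. -/
def MovableBig (M : VolData V) : Prop :=
  ∀ N ∉ baseClasses M, IsAccumulation M N →
    ∃ s : ℝ, ∃ f ∈ baseClasses M, N + s • M.kappa + f ∈ M.big

/-- The pull-back of `φ_* L` is at most the pull-back of `L` plus `C` times the log discrepancies
of `X'`. -/
def Dominated (M : VolData V) (C : ℝ) (φ : M.Map) (L : V) : Prop :=
  ∃ h : L ∈ M.cart φ, ∀ v, M.diff φ ⟨L, h⟩ v ≤
    C * (M.ld v - M.diff φ ⟨M.kappa, M.kappa_mem φ⟩ v)

/-- The models with a class in a fixed compact set of big classes which is dominated with a fixed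
constant have local volumes bounded below. -/
theorem transport (M : VolData V) {K : Set V} (hK : IsCompact K) (hKb : K ⊆ M.big) (C : ℝ)
    (hC : 0 ≤ C) : ∃ ε : ℝ, 0 < ε ∧ ∀ φ, (∃ L ∈ K, Dominated M C φ L) →
      ∀ x : M.Point φ, ε ≤ M.vol φ x := by
  rcases K.eq_empty_or_nonempty with hKe | hKn
  · refine ⟨1, one_pos, ?_⟩
    rintro φ ⟨L, hL, -⟩
    rw [hKe] at hL
    exact absurd hL (notMem_empty L)
  obtain ⟨L₁, hL₁, hmin⟩ := hK.exists_isMinOn hKn (M.volume_cont.mono hKb)
  have hH₀ : L₁ ∈ M.big := hKb hL₁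
  obtain ⟨r, hr, hball⟩ := Metric.isOpen_iff.mp M.big_open L₁ hH₀
  obtain ⟨R, hR⟩ := hK.isBounded.exists_norm_le
  have hR0 : 0 ≤ R := (norm_nonneg L₁).trans (hR L₁ hL₁)
  set t : ℝ := R / r + 1 with ht
  have htpos : 0 < t := by positivity
  have htR : R < t * r := by
    rw [ht, add_mul, div_mul_cancel₀ R hr.ne']
    linarith
  have hdom : ∀ L ∈ K, t • L₁ - L ∈ M.big := by
    intro L hL
    have h1 : L₁ - t⁻¹ • L ∈ M.big := by
      apply hball
      rw [mem_ball_iff_norm, sub_sub_cancel_left, norm_neg, norm_smul, norm_inv,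
        Real.norm_of_nonneg htpos.le, inv_mul_lt_iff₀ htpos]
      exact (hR L hL).trans_lt htR
    have h2 := M.big_smul _ h1 t htpos
    rwa [smul_sub, smul_inv_smul₀ htpos.ne'] at h2
  obtain ⟨a, ha, hal⟩ := M.alpha_pos (t • L₁) (M.big_smul _ hH₀ t htpos)
  have hord : ∀ L ∈ K, ∀ o ∈ M.orders L, ∀ v, a * o v ≤ M.ld v := by
    intro L hL o ho v
    obtain ⟨o', ho'⟩ := M.orders_nonempty _ (hdom L hL)
    have h1 := M.orders_add L (t • L₁ - L) o ho o' ho'
    rw [add_sub_cancel] at h1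
    have h2 := hal _ h1 v
    have h3 := M.orders_nonneg _ o' ho' v
    rw [Pi.add_apply, mul_add] at h2
    have h4 : 0 ≤ a * o' v := mul_nonneg ha.le h3
    linarith
  have hden : 0 < 1 + C * a := by positivity
  have hc : 0 < a / (1 + C * a) := div_pos ha hden
  refine ⟨(a / (1 + C * a)) ^ M.dim * M.volume L₁, mul_pos (pow_pos hc _) (M.volume_pos _ hH₀), ?_⟩
  rintro φ ⟨L, hL, hLc, hdiff⟩ x
  have key := M.local_global L (hKb hL) φ hLc (a / (1 + C * a)) hc (by
    intro o ho v
    have h1 := hord L hL o ho v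
    have h2 := hdiff v
    have h3 := M.kappa_nonneg φ v
    rw [div_mul_eq_mul_div, div_le_iff₀ hden]
    have h4 := mul_le_mul_of_nonneg_left h2 ha.le
    nlinarith) x
  refine le_trans ?_ key
  exact mul_le_mul_of_nonneg_left (hmin hL) (pow_pos hc _).le

theorem base_diff (M : VolData V) (φ : M.Map) {f : V} (hf : f ∈ baseClasses M) :
    ∃ h : f ∈ M.cart φ, M.diff φ ⟨f, h⟩ = 0 := by
  refine Submodule.span_induction (p := fun f _ => ∃ h : f ∈ M.cart φ, M.diff φ ⟨f, h⟩ = 0)
    ?_ ?_ ?_ ?_ hf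
  · rintro L ⟨π, hπ, rfl⟩
    exact ⟨M.pull_mem π hπ φ, M.diff_pull π hπ φ⟩
  · exact ⟨(M.cart φ).zero_mem, (M.diff φ).map_zero⟩
  · rintro f g _ _ ⟨h1, h2⟩ ⟨h3, h4⟩
    refine ⟨(M.cart φ).add_mem h1 h3, ?_⟩
    have e : (⟨f + g, (M.cart φ).add_mem h1 h3⟩ : M.cart φ) = ⟨f, h1⟩ + ⟨g, h3⟩ := rfl
    rw [e, map_add, h2, h4, add_zero]
  · rintro c f _ ⟨h1, h2⟩
    refine ⟨(M.cart φ).smul_mem c h1, ?_⟩
    have e : (⟨c • f, (M.cart φ).smul_mem c h1⟩ : M.cart φ) = c • ⟨f, h1⟩ := rfl
    rw [e, map_smul, h2, smul_zero]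

/-- One model. -/
theorem single (M : VolData V) (φ : M.Map) :
    ∃ ε : ℝ, 0 < ε ∧ ∀ x : M.Point φ, ε ≤ M.vol φ x := by
  obtain ⟨N, hN⟩ := M.amp_nonempty φ
  obtain ⟨ε, hε, h⟩ := transport M (isCompact_singleton (x := N))
    (singleton_subset_iff.mpr (M.amp_big φ hN)) 0 le_rfl
  refine ⟨ε, hε, fun x => h φ ⟨N, mem_singleton N, M.amp_mem φ N hN, fun v => ?_⟩ x⟩
  rw [zero_mul]
  exact M.amp_diff φ N hN v

/-- Finitely many models. -/
theorem finitely_many (M : VolData V) {Φ : Set M.Map} (hΦ : Φ.Finite) :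
    ∃ ε : ℝ, 0 < ε ∧ ∀ φ ∈ Φ, ∀ x : M.Point φ, ε ≤ M.vol φ x := by
  refine Set.Finite.induction_on (motive := fun Φ _ => ∃ ε : ℝ, 0 < ε ∧ ∀ φ ∈ Φ,
    ∀ x : M.Point φ, ε ≤ M.vol φ x) Φ hΦ ?_ ?_
  · exact ⟨1, one_pos, fun φ hφ => absurd hφ (notMem_empty φ)⟩
  · rintro φ Φ _ _ ⟨ε, hε, h⟩
    obtain ⟨δ, hδ, h'⟩ := single M φ
    refine ⟨min ε δ, lt_min hε hδ, ?_⟩
    rintro ψ (rfl | hψ) x
    · exact (min_le_right _ _).trans (h' x)
    · exact (min_le_left _ _).trans (h ψ hψ x)

/-- The movable criterion. -/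
theorem criterion [FiniteDimensional ℝ V] (M : VolData V) (hM : MovableBig M) :
    VolBounded M.toModels := by
  set F := baseClasses M with hF
  by_cases hA : ∃ f ∈ F, f ∈ M.big
  · obtain ⟨f, hf, hfb⟩ := hA
    obtain ⟨ε, hε, h⟩ := transport M (isCompact_singleton (x := f))
      (singleton_subset_iff.mpr hfb) 0 le_rfl
    refine ⟨ε, hε, fun φ x => h φ ⟨f, mem_singleton f, ?_⟩ x⟩
    obtain ⟨h1, h2⟩ := base_diff M φ hf
    refine ⟨h1, fun v => ?_⟩
    rw [h2, zero_mul]
    rfl
  have hA' : ∀ f ∈ F, f ∉ M.big := fun f hf hb => hA ⟨f, hf, hb⟩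
  obtain ⟨F', hF'⟩ := Submodule.exists_isCompl F
  obtain ⟨P, hP1, hP2⟩ : ∃ P : V →ₗ[ℝ] V, (∀ f ∈ F, P f = 0) ∧ ∀ v, v - P v ∈ F := by
    refine ⟨F'.subtype.comp (Submodule.projectionOnto F' F hF'.symm), ?_, ?_⟩
    · intro f hf
      rw [LinearMap.comp_apply, Submodule.projectionOnto_apply_of_mem_right hF'.symm hf, map_zero]
    · intro v
      refine (Submodule.projectionOnto_apply_eq_zero_iff hF'.symm).mp ?_
      rw [map_sub, sub_eq_zero, LinearMap.comp_apply, Submodule.subtype_apply,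
        Submodule.projectionOnto_apply_left]
  have hPP : ∀ v, P (P v) = P v := by
    intro v
    have h1 := hP1 _ (hP2 v)
    rw [map_sub, sub_eq_zero] at h1
    exact h1.symm
  have hPc : Continuous P := LinearMap.continuous_of_finiteDimensional P
  set S : Set V := {N | P N = N} ∩ Metric.sphere 0 1 with hS
  have hScomp : IsCompact S :=
    (isCompact_sphere (0 : V) 1).inter_left (isClosed_eq hPc continuous_id)
  have hSF : ∀ N ∈ S, N ∉ F := by
    rintro N ⟨h1, h2⟩ hN
    have h3 : N = 0 := by rw [← h1]; exact hP1 N hN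
    rw [h3, mem_sphere_zero_iff_norm, norm_zero] at h2
    exact zero_ne_one h2
  have key : ∃ ε : ℝ, 0 < ε ∧ ∀ φ, (∃ N ∈ M.amp φ, ‖P N‖⁻¹ • P N ∈ S) →
      ∀ x : M.Point φ, ε ≤ M.vol φ x := by
    refine hScomp.induction_on (p := fun U => ∃ ε : ℝ, 0 < ε ∧ ∀ φ,
      (∃ N ∈ M.amp φ, P N ≠ 0 ∧ ‖P N‖⁻¹ • P N ∈ U) → ∀ x : M.Point φ, ε ≤ M.vol φ x) ?_ ?_ ?_ ?_
      |> fun ⟨ε, hε, h⟩ => ⟨ε, hε, ?_⟩
    · exact ⟨1, one_pos, fun φ ⟨N, _, _, h⟩ => absurd h (notMem_empty _)⟩
    · rintro U U' hUU' ⟨ε, hε, h⟩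
      exact ⟨ε, hε, fun φ ⟨N, h1, h2, h3⟩ => h φ ⟨N, h1, h2, hUU' h3⟩⟩
    · rintro U U' ⟨ε, hε, h⟩ ⟨δ, hδ, h'⟩
      refine ⟨min ε δ, lt_min hε hδ, ?_⟩
      rintro φ ⟨N, h1, h2, h3 | h3⟩ x
      · exact (min_le_left _ _).trans (h φ ⟨N, h1, h2, h3⟩ x)
      · exact (min_le_right _ _).trans (h' φ ⟨N, h1, h2, h3⟩ x)
    · intro N₀ hN₀
      by_cases hacc : IsAccumulation M N₀
      · obtain ⟨s, f, hf, hb⟩ := hM N₀ (hSF N₀ hN₀) hacc
        obtain ⟨r, hr, hball⟩ := Metric.isOpen_iff.mp M.big_open _ hb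
        have hKb : Metric.closedBall (N₀ + s • M.kappa + f) (r / 2) ⊆ M.big :=
          (Metric.closedBall_subset_ball (half_lt_self hr)).trans hball
        obtain ⟨ε, hε, h⟩ := transport M (isCompact_closedBall _ _) hKb |s| (abs_nonneg s)
        refine ⟨Metric.ball N₀ (r / 2), mem_nhdsWithin_of_mem_nhds
          (Metric.ball_mem_nhds N₀ (half_pos hr)), ε, hε, ?_⟩
        rintro φ ⟨N, hN, hPN, hNU⟩ x
        have hc : 0 < ‖P N‖⁻¹ := inv_pos.mpr (norm_pos_iff.mpr hPN)
        set c : ℝ := ‖P N‖⁻¹ with hcdef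
        have hgF : c • (P N - N) ∈ F := by
          apply F.smul_mem
          have h1 := F.neg_mem (hP2 N)
          rwa [neg_sub] at h1
        refine h φ ⟨c • P N + s • M.kappa + f, ?_, ?_⟩ x
        · rw [mem_closedBall_iff_norm]
          have e : c • P N + s • M.kappa + f - (N₀ + s • M.kappa + f) = c • P N - N₀ := by abel
          rw [e]
          exact (mem_ball_iff_norm.mp hNU).le
        · obtain ⟨hg1, hg2⟩ := base_diff M φ (F.add_mem hgF hf)
          have hNc := M.amp_mem φ N hN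
          have e : c • P N + s • M.kappa + f =
              c • N + s • M.kappa + (c • (P N - N) + f) := by
            rw [smul_sub]; abel
          have hmem : c • N + s • M.kappa + (c • (P N - N) + f) ∈ M.cart φ :=
            (M.cart φ).add_mem ((M.cart φ).add_mem ((M.cart φ).smul_mem c hNc)
              ((M.cart φ).smul_mem s (M.kappa_mem φ))) hg1
          rw [e]
          refine ⟨hmem, fun v => ?_⟩
          have e2 : (⟨c • N + s • M.kappa + (c • (P N - N) + f), hmem⟩ : M.cart φ) =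
              c • ⟨N, hNc⟩ + s • ⟨M.kappa, M.kappa_mem φ⟩ + ⟨c • (P N - N) + f, hg1⟩ := rfl
          rw [e2, map_add, map_add, map_smul, map_smul, hg2, add_zero]
          simp only [Pi.add_apply, Pi.smul_apply, smul_eq_mul]
          have h1 := M.amp_diff φ N hN v
          have h2 := M.kappa_nonneg φ v
          have h3 := M.ld_pos v
          have h5 := neg_abs_le s
          have h6 : c * M.diff φ ⟨N, hNc⟩ v ≤ 0 := mul_nonpos_of_nonneg_of_nonpos hc.le h1
          have h7 : s * M.diff φ ⟨M.kappa, M.kappa_mem φ⟩ v ≤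
              |s| * (-M.diff φ ⟨M.kappa, M.kappa_mem φ⟩ v) := by nlinarith
          have h9 : 0 ≤ |s| * M.ld v := mul_nonneg (abs_nonneg s) h3.le
          rw [mul_sub]
          linarith
      · unfold IsAccumulation at hacc
        push Not at hacc
        obtain ⟨U, hU, hfin⟩ := hacc
        obtain ⟨ε, hε, h⟩ := finitely_many M hfin
        refine ⟨U, mem_nhdsWithin_of_mem_nhds hU, ε, hε, ?_⟩
        rintro φ ⟨N, hN, hPN, hNU⟩ x
        have hc : 0 < ‖P N‖⁻¹ := inv_pos.mpr (norm_pos_iff.mpr hPN)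
        refine h φ ⟨‖P N‖⁻¹ • N, M.amp_smul φ N hN _ hc, mem_add.mpr
          ⟨‖P N‖⁻¹ • P N, hNU, ‖P N‖⁻¹ • (N - P N), F.smul_mem _ (hP2 N), ?_⟩⟩ x
        rw [← smul_add, add_sub_cancel]
    · rintro φ ⟨N, h1, h2⟩
      refine h φ ⟨N, h1, ?_, h2⟩
      intro h0
      rw [h0, smul_zero] at h2
      exact hSF _ h2 F.zero_mem
  obtain ⟨ε, hε, hb⟩ := key
  refine ⟨ε, hε, fun φ x => hb φ ?_ x⟩
  obtain ⟨N, hN⟩ := M.amp_nonempty φ
  have hNF : N ∉ F := fun h => hA' N h (M.amp_big φ hN)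
  have hPN : P N ≠ 0 := by
    intro h
    apply hNF
    have h1 := hP2 N
    rwa [h, sub_zero] at h1
  refine ⟨N, hN, ?_, ?_⟩
  · show P (‖P N‖⁻¹ • P N) = ‖P N‖⁻¹ • P N
    rw [map_smul, hPP]
  · rw [mem_sphere_zero_iff_norm, norm_smul, norm_inv, norm_norm,
      inv_mul_cancel₀ (norm_ne_zero_iff.mpr hPN)]

end

theorem result {W : Type} [NormedAddCommGroup W] [NormedSpace ℝ W] [FiniteDimensional ℝ W]
    (Y : VolData W) :
    (∀ K : Set W, IsCompact K → K ⊆ Y.big → ∀ C : ℝ, 0 ≤ C → ∃ ε : ℝ, 0 < ε ∧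
      ∀ φ, (∃ L ∈ K, Dominated Y C φ L) → ∀ x : Y.Point φ, ε ≤ Y.vol φ x) ∧
    (MovableBig Y → VolBounded Y.toModels ∧
      ∀ (X : Models) (_ : CrepantCover Y.toModels X), VolBounded X) := by
  refine ⟨fun K hK hKb C hC => transport Y hK hKb C hC, fun hY => ?_⟩
  have hb := criterion Y hY
  refine ⟨hb, fun X f => ?_⟩
  obtain ⟨ε, hε, hb⟩ := hb
  have hdeg : (0 : ℝ) < f.deg := by exact_mod_cast f.deg_pos
  refine ⟨ε / f.deg, by positivity, fun φ x => ?_⟩
  obtain ⟨y, hy⟩ := f.vol_le φ x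
  rw [div_le_iff₀ hdeg]
  have := hb (f.lift φ) y
  linarith

end Pool.Agent.Work.MP_c0c476_mc.Draft
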